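import Pool.Agent.Lib.Pee92d8.Growth

set_option autoImplicit false

/-!
# The infimum of the conjugacy growth rates of primitive elements

For every `k ≥ 2` the infimum of `γ(S)` over all finite generating sets `S` of `F_k` is `1`.

Idea: let `v` be a long positive word in which every subword of a given length `L₀` contains all
two-letter positive words (so that it cannot occur in a power of a cyclically reduced primitive
element), and take `S = {v} ∪ {v ^ a_i x_i v ^ (-b_i)}` with exponents `a_i, b_i` far apart.  Then the
translation length over `S` of a primitive element is at least `lam + 1` times its cyclic length.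
-/

namespace Pool.Agent.Results.MP_ee92d8_al.GammaInfimum

open Pool.Agent.Lib.Pee92d8

theorem result (k : ℕ) (hk : 2 ≤ k) :
    ⨅ (S : Set (FreeGroup (Fin k))) (_ : S.Finite) (_ : Subgroup.closure S = ⊤), gamma k S = 1 :=
  iInf_gamma hk

end Pool.Agent.Results.MP_ee92d8_al.GammaInfimum
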