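import Pool.Agent.Lib.Pee92d8r.Main

set_option autoImplicit false

/-!
# Bounds for the infimum of the growth rates of primitive elements

For every `k ≥ 2` the infimum of `ρ(S)` over all finite generating sets `S` of `F_k` lies between `√(2k-1)` and
`√(2k+1)`.

Lower bound: `S` contains `k` elements that are independent in the abelianisation, hence generate a free group of
rank `k` freely; the conjugates of a fixed primitive element by the elements of this subgroup give
`(2k-1)^(N/2)` primitive elements of length about `N`.

Upper bound: the generating sets with `k+1` elements constructed for `γ(S)` (hand-in `GammaInfimum`), in which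
every word for a conjugate of a cyclically reduced primitive element `c` has at least `2|c|` letters.
-/

namespace Pool.Agent.Results.MP_ee92d8_al.RhoBounds

open Pool.Agent.Lib.Pee92d8
open scoped ENNReal

theorem result (k : ℕ) (hk : 2 ≤ k) :
    (((2 * k - 1 : ℕ) : ℝ≥0∞) ^ ((1 : ℝ) / 2) ≤
      ⨅ (S : Set (FreeGroup (Fin k))) (_ : S.Finite) (_ : Subgroup.closure S = ⊤), rhoGrowth k S) ∧
    (⨅ (S : Set (FreeGroup (Fin k))) (_ : S.Finite) (_ : Subgroup.closure S = ⊤), rhoGrowth k S) ≤
      ((2 * k + 1 : ℕ) : ℝ≥0∞) ^ ((1 : ℝ) / 2) := by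
  refine ⟨le_iInf fun S => le_iInf fun hfin => le_iInf fun hS => R.rho_lower k hk S hfin hS, ?_⟩
  obtain ⟨S, hfin, hS, h⟩ := R.rho_upper k hk
  exact iInf_le_of_le S (iInf_le_of_le hfin (iInf_le_of_le hS h))

end Pool.Agent.Results.MP_ee92d8_al.RhoBounds
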